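import Mathlib
import Pool.Agent.Q102.BraidList

/-!
MP_de0ecf_co, Q1: for every Coxeter system of type `Λ` (simply laced, triangle free) and every
reduced word `α`, `diam (B(α)) = dim(α)`.
-/

namespace Pool.Agent.Results.MP_de0ecf_co.DiamEqDim

open Pool.Agent.Q102.Braid

/-- the set of position triples `{i, i+1, i+2}` (positions counted from `0`) that are braid
shadows of at least one word in the braid class of `α` -/
def shadows {B : Type*} (M : CoxeterMatrix B) (α : List B) : Set (Finset ℕ) :=
  {X | ∃ β ∈ braidClass M α, ∃ (i : ℕ) (s t : B), M s t = 3 ∧ β[i]? = some s ∧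
    β[i + 1]? = some t ∧ β[i + 2]? = some s ∧ X = {i, i + 1, i + 2}}

/-- the dimension of a word -/
noncomputable def dimension {B : Type*} (M : CoxeterMatrix B) (α : List B) : ℕ :=
  (shadows M α).ncard

theorem ncard_centres {B : Type*} (M : CoxeterMatrix B) (α : List B) :
    (centres M α).ncard = dimension M α := by
  have himg : shadows M α = (fun c : ℤ => ({(c - 1).toNat, c.toNat, (c + 1).toNat} : Finset ℕ)) ''
      (centres M α) := by
    ext X
    constructor
    · rintro ⟨β, hβ, i, s, t, hm, h0, h1, h2, rfl⟩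
      refine ⟨(i : ℤ) + 1, ⟨emb β, ⟨β, hβ, rfl⟩, ?_⟩, ?_⟩
      · have hx := split3 h0 h1 h2
        have hlen : (β.take i).length = i := by
          obtain ⟨l0, -⟩ := List.getElem?_eq_some_iff.mp h0
          rw [List.length_take]; omega
        have := (Move.en (l := β.take i) (r := β.drop (i + 3)) hm).1
        rw [hlen, ← hx] at this
        exact this
      · have e1 : ((i : ℤ) + 1 - 1).toNat = i := by omega
        have e2 : ((i : ℤ) + 1).toNat = i + 1 := by omega
        have e3 : ((i : ℤ) + 1 + 1).toNat = i + 2 := by omega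
        simp only [e1, e2, e3]
    · rintro ⟨c, ⟨_, ⟨β, hβ, rfl⟩, he⟩, rfl⟩
      obtain ⟨n, s, t, rfl, hm, h0, h1, h2⟩ := en_pos he
      refine ⟨β, hβ, n, s, t, hm, h0, h1, h2, ?_⟩
      have e1 : ((n : ℤ) + 1 - 1).toNat = n := by omega
      have e2 : ((n : ℤ) + 1).toNat = n + 1 := by omega
      have e3 : ((n : ℤ) + 1 + 1).toNat = n + 2 := by omega
      simp only [e1, e2, e3]
  unfold dimension
  rw [himg, Set.InjOn.ncard_image]
  rintro c ⟨_, ⟨β, hβ, rfl⟩, he⟩ d ⟨_, ⟨γ, hγ, rfl⟩, he'⟩ hcd
  obtain ⟨n, s, t, rfl, -⟩ := en_pos he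
  obtain ⟨m, s', t', rfl, -⟩ := en_pos he'
  have e1 : ((n : ℤ) + 1 - 1).toNat = n := by omega
  have e2 : ((n : ℤ) + 1).toNat = n + 1 := by omega
  have e3 : ((n : ℤ) + 1 + 1).toNat = n + 2 := by omega
  have f1 : ((m : ℤ) + 1 - 1).toNat = m := by omega
  have f2 : ((m : ℤ) + 1).toNat = m + 1 := by omega
  have f3 : ((m : ℤ) + 1 + 1).toNat = m + 2 := by omega
  simp only [e1, e2, e3, f1, f2, f3] at hcd
  have h1 : n ∈ ({m, m + 1, m + 2} : Finset ℕ) := hcd ▸ (by simp)
  have h2 : m ∈ ({n, n + 1, n + 2} : Finset ℕ) := hcd ▸ (by simp)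
  simp only [Finset.mem_insert, Finset.mem_singleton] at h1 h2
  omega

theorem result {B W : Type*} [Group W] (M : CoxeterMatrix B) (cs : CoxeterSystem M W)
    (hΛ : TypeLambda M) (α : List B) (hα : cs.IsReduced α) :
    (braidGraph M α).diam = dimension M α := by
  rw [← ncard_centres]
  obtain ⟨u, v, huv⟩ := antipodal cs hΛ hα
  have hconn : (braidGraph M α).Connected := by
    rw [SimpleGraph.connected_iff]
    exact ⟨fun x y => (huv x).1.trans (huv y).1.symm, ⟨u⟩⟩
  have hle : ∀ x y, (braidGraph M α).dist x y ≤ (centres M α).ncard := by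
    intro x y
    have t1 := hconn.dist_triangle (u := x) (v := u) (w := y)
    have t2 := hconn.dist_triangle (u := x) (v := v) (w := y)
    have h1 := (huv x).2.2
    have h2 := (huv y).2.2
    have c1 := SimpleGraph.dist_comm (G := braidGraph M α) (u := x) (v := u)
    have c2 := SimpleGraph.dist_comm (G := braidGraph M α) (u := v) (v := y)
    omega
  have hed : (braidGraph M α).ediam ≤ ((centres M α).ncard : ℕ∞) := by
    apply SimpleGraph.ediam_le_of_edist_le
    intro x y
    rw [← (hconn x y).coe_dist_eq_edist]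
    exact_mod_cast hle x y
  have hne : (braidGraph M α).ediam ≠ ⊤ := by
    intro h
    rw [h] at hed
    exact absurd hed (by simp)
  apply le_antisymm
  · have : Nonempty (braidClass M α) := ⟨u⟩
    obtain ⟨x, y, hxy⟩ := SimpleGraph.exists_dist_eq_diam (G := braidGraph M α)
    rw [← hxy]
    exact hle x y
  · have := (huv v).2.2
    rw [SimpleGraph.dist_self, add_zero] at this
    rw [← this]
    exact SimpleGraph.dist_le_diam hne

end Pool.Agent.Results.MP_de0ecf_co.DiamEqDim
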